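import Mathlib

/-!
# The conjectured bound for the modified Erdos-Ginzburg-Ziv constants is false for `n = 3`, `d ≥ 3`

The points `(x, y, x² + y², e)`, `x, y ∈ ZMod 3`, `e ∈ {0, 1} ^ r`, of `(ZMod 3) ^ (3 + r)`, each
taken twice, form a zero-sum sequence of length `18 * 2 ^ r` without a zero-sum subsequence of
length `3`.
-/

set_option autoImplicit false

namespace Pool.Agent.Results.MP_b34cfe_co.CapCounterexample

/-- Every zero-sum sequence (multiset) over `G` of length at least `L` has a zero-sum subsequence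
(sub-multiset) of length exactly `m`. -/
def Forces (m : ℕ) (G : Type) [AddCommGroup G] (L : ℕ) : Prop :=
  ∀ S : Multiset G, S.sum = 0 → L ≤ Multiset.card S →
    ∃ T ≤ S, Multiset.card T = m ∧ T.sum = 0

/-- The modified Erdos-Ginzburg-Ziv constant `s'_m(G)`: the least integer `L` such that every
zero-sum sequence over `G` of length at least `L` has a zero-sum subsequence of length `m`. -/
noncomputable def modifiedEGZ (m : ℕ) (G : Type) [AddCommGroup G] : ℕ :=
  sInf {L : ℕ | Forces m G L}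

/-- The point `(x, y, x² + y², e)`. -/
def pt (r : ℕ) (p : (ZMod 3 × ZMod 3) × (Fin r → Bool)) : Fin (3 + r) → ZMod 3 :=
  Fin.append ![p.1.1, p.1.2, p.1.1 ^ 2 + p.1.2 ^ 2] (fun i => if p.2 i then 1 else 0)

/-- The sequence: each point is taken twice. -/
def seq (r : ℕ) : Multiset (Fin (3 + r) → ZMod 3) :=
  2 • (Finset.univ.val.map (pt r))

lemma two_bool : ∀ a b : Bool, (if a then 1 else 0 : ZMod 3) = (if b then 1 else 0) → a = b := by
  decide

lemma pt_injective (r : ℕ) : Function.Injective (pt r) := by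
  rintro ⟨⟨a, b⟩, e⟩ ⟨⟨a', b'⟩, e'⟩ h
  have h0 := congrFun h (Fin.castAdd r 0)
  have h1 := congrFun h (Fin.castAdd r 1)
  simp only [pt, Fin.append_left, Matrix.cons_val_zero, Matrix.cons_val_one] at h0 h1
  have h2 : e = e' := by
    funext i
    have h3 := congrFun h (Fin.natAdd 3 i)
    simp only [pt, Fin.append_right] at h3
    exact two_bool _ _ h3
  rw [h0, h1, h2]

lemma card_seq (r : ℕ) : Multiset.card (seq r) = 18 * 2 ^ r := by
  rw [seq, Multiset.card_nsmul, Multiset.card_map, Finset.card_val, Finset.card_univ,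
    Fintype.card_prod, Fintype.card_prod, Fintype.card_pi, ZMod.card]
  simp
  ring

lemma sum_seq (r : ℕ) : (seq r).sum = 0 := by
  rw [seq, Multiset.sum_nsmul]
  change 2 • (∑ p, pt r p) = 0
  have h : (∑ p, pt r p) = 0 := by
    funext j
    rw [Finset.sum_apply, Pi.zero_apply]
    induction j using Fin.addCases with
    | left i =>
      simp only [pt, Fin.append_left]
      rw [Fintype.sum_prod_type]
      simp only [Finset.sum_const]
      rw [← Finset.smul_sum]
      have h1 : ∀ i : Fin 3, (∑ x : ZMod 3 × ZMod 3, (![x.1, x.2, x.1 ^ 2 + x.2 ^ 2] : Fin 3 → ZMod 3) i)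
          = 0 := by decide
      rw [h1 i, smul_zero]
    | right i =>
      simp only [pt, Fin.append_right]
      rw [Fintype.sum_prod_type]
      change (∑ _x : ZMod 3 × ZMod 3, ∑ y : Fin r → Bool, (if y i then (1 : ZMod 3) else 0)) = 0
      rw [Finset.sum_const]
      have h1 : (Finset.univ : Finset (ZMod 3 × ZMod 3)).card = 9 := by decide
      rw [h1]
      have h2 : ∀ z : ZMod 3, (9 : ℕ) • z = 0 := by decide
      exact h2 _
  rw [h, smul_zero]

lemma three_quadric : ∀ a b c a' b' c' : ZMod 3, a + b + c = 0 → a' + b' + c' = 0 →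
    (a ^ 2 + a' ^ 2) + (b ^ 2 + b' ^ 2) + (c ^ 2 + c' ^ 2) = 0 → (a = b ∧ a' = b') := by
  decide

lemma three_bool : ∀ a b c : Bool, ((if a then 1 else 0 : ZMod 3) + (if b then 1 else 0) +
    (if c then 1 else 0)) = 0 → a = b := by
  decide

/-- Three points of the cap with sum zero: the first two are equal. -/
lemma three_pt (r : ℕ) (p q s : (ZMod 3 × ZMod 3) × (Fin r → Bool))
    (h : pt r p + pt r q + pt r s = 0) : p = q := by
  obtain ⟨⟨a, a'⟩, e⟩ := p
  obtain ⟨⟨b, b'⟩, f⟩ := q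
  obtain ⟨⟨c, c'⟩, g⟩ := s
  have h0 := congrFun h (Fin.castAdd r 0)
  have h1 := congrFun h (Fin.castAdd r 1)
  have h2 := congrFun h (Fin.castAdd r 2)
  simp only [pt, Pi.add_apply, Fin.append_left, Matrix.cons_val_zero, Matrix.cons_val_one,
    Matrix.cons_val, Pi.zero_apply] at h0 h1 h2
  obtain ⟨h3, h4⟩ := three_quadric a b c a' b' c' h0 h1 h2
  have h5 : e = f := by
    funext i
    have h6 := congrFun h (Fin.natAdd 3 i)
    simp only [pt, Pi.add_apply, Fin.append_right, Pi.zero_apply] at h6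
    exact three_bool _ _ _ h6
  rw [h3, h4, h5]

lemma no_three (r : ℕ) : ¬ ∃ T ≤ seq r, Multiset.card T = 3 ∧ T.sum = 0 := by
  rintro ⟨T, hT, hc, hs⟩
  obtain ⟨x, y, z, rfl⟩ := Multiset.card_eq_three.1 hc
  have hmem : ∀ w ∈ ({x, y, z} : Multiset (Fin (3 + r) → ZMod 3)), ∃ p, pt r p = w := by
    intro w hw
    have h1 := Multiset.mem_of_le hT hw
    rw [seq, Multiset.mem_nsmul] at h1
    obtain ⟨p, _, hp⟩ := Multiset.mem_map.1 h1.2
    exact ⟨p, hp⟩
  obtain ⟨p, hp⟩ := hmem x (by simp)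
  obtain ⟨q, hq⟩ := hmem y (by simp)
  obtain ⟨s, hs'⟩ := hmem z (by simp)
  have hsum : pt r p + pt r q + pt r s = 0 := by
    rw [hp, hq, hs', ← hs]
    simp [add_assoc]
  have h1 : p = q := three_pt r p q s hsum
  have h2 : q = s := three_pt r q s p (by rw [← hsum]; abel)
  have hxy : x = y := by rw [← hp, ← hq, h1]
  have hyz : y = z := by rw [← hq, ← hs', h2]
  subst hxy hyz
  have h3 := Multiset.count_le_of_le x hT
  have h4 : Multiset.count x (seq r) ≤ 2 := by
    rw [seq, Multiset.count_nsmul]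
    have h5 : (Finset.univ.val.map (pt r)).Nodup :=
      Multiset.Nodup.map (pt_injective r) Finset.univ.nodup
    have h6 := Multiset.nodup_iff_count_le_one.1 h5 x
    omega
  have h7 : Multiset.count x ({x, x, x} : Multiset (Fin (3 + r) → ZMod 3)) = 3 := by
    simp [Multiset.insert_eq_cons]
  omega

/-- The constant is finite. -/
lemma forces_large (d : ℕ) :
    Forces 3 (Fin d → ZMod 3) (2 * Fintype.card (Fin d → ZMod 3) + 1) := by
  classical
  intro S _ hS
  by_contra hcon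
  have h1 : ∀ x : Fin d → ZMod 3, S.count x ≤ 2 := by
    intro x
    by_contra hx
    apply hcon
    refine ⟨Multiset.replicate 3 x, Multiset.le_count_iff_replicate_le.1 (by omega),
      Multiset.card_replicate 3 x, ?_⟩
    rw [Multiset.sum_replicate]
    funext i
    have h3 : ∀ z : ZMod 3, (3 : ℕ) • z = 0 := by decide
    exact h3 _
  have h2 : Multiset.card S = ∑ x : Fin d → ZMod 3, S.count x := by
    rw [Multiset.sum_count_eq_card]
    intro a _
    exact Finset.mem_univ a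
  have h4 : ∑ x : Fin d → ZMod 3, S.count x ≤ ∑ _x : Fin d → ZMod 3, 2 :=
    Finset.sum_le_sum fun x _ => h1 x
  rw [Finset.sum_const, Finset.card_univ, smul_eq_mul] at h4
  omega

lemma lower (r : ℕ) : 18 * 2 ^ r + 1 ≤ modifiedEGZ 3 (Fin (3 + r) → ZMod 3) := by
  refine le_csInf ⟨_, forces_large (3 + r)⟩ ?_
  intro L hL
  by_contra hlt
  exact no_three r (hL (seq r) (sum_seq r) (by rw [card_seq]; omega))

/-- **The conjectured upper bound is false.** For every `d ≥ 3` and `r = d - 3` there is a zero-sum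
sequence of length `18 * 2 ^ r` over `(ℤ/3ℤ)^d` without a zero-sum subsequence of length `3`, so that
`s'_3((ℤ/3ℤ)^d) ≥ 18 * 2 ^ r + 1`, and this number is larger than the conjectured upper bound
`(t + 2 ^ d - 1) n - l + 1`, `n = 3`, `t = 1`, `l = 2 ^ d`, which is `16 * 2 ^ r + 1`. In particular
the inequality is not true of all positive integers `n, t, d`. -/
theorem result :
    (∀ d : ℕ, 3 ≤ d → ∃ S : Multiset (Fin d → ZMod 3), S.sum = 0 ∧
      Multiset.card S = 18 * 2 ^ (d - 3) ∧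
      ¬ ∃ T ≤ S, Multiset.card T = 3 ∧ T.sum = 0) ∧
    (∀ d : ℕ, 3 ≤ d → {L : ℕ | Forces 3 (Fin d → ZMod 3) L}.Nonempty ∧
      18 * 2 ^ (d - 3) + 1 ≤ modifiedEGZ 3 (Fin d → ZMod 3) ∧
      ∀ l : ℕ, IsLeast {m : ℕ | 2 ^ d ≤ m ∧ ¬ m ∣ 3} l →
        ((1 : ℤ) + 2 ^ d - 1) * 3 - l + 1 < modifiedEGZ 3 (Fin d → ZMod 3)) ∧
    ¬ ∀ n t d : ℕ, 1 ≤ n → 1 ≤ t → 1 ≤ d → ∀ l : ℕ, IsLeast {m : ℕ | 2 ^ d ≤ m ∧ ¬ m ∣ n} l →
        (modifiedEGZ (n * t) (Fin d → ZMod n) : ℤ) ≤ ((t : ℤ) + 2 ^ d - 1) * n - l + 1 := by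
  have main : ∀ d : ℕ, 3 ≤ d → {L : ℕ | Forces 3 (Fin d → ZMod 3) L}.Nonempty ∧
      18 * 2 ^ (d - 3) + 1 ≤ modifiedEGZ 3 (Fin d → ZMod 3) ∧
      ∀ l : ℕ, IsLeast {m : ℕ | 2 ^ d ≤ m ∧ ¬ m ∣ 3} l →
        ((1 : ℤ) + 2 ^ d - 1) * 3 - l + 1 < modifiedEGZ 3 (Fin d → ZMod 3) := by
    intro d hd
    obtain ⟨r, rfl⟩ : ∃ r, d = 3 + r := ⟨d - 3, by omega⟩
    have hr : 3 + r - 3 = r := by omega
    rw [hr]
    refine ⟨⟨_, forces_large (3 + r)⟩, lower r, ?_⟩
    intro l hl
    have h1 : 2 ^ (3 + r) ≤ l := hl.1.1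
    have h2 := lower r
    have h3 : (2 : ℕ) ^ (3 + r) = 8 * 2 ^ r := by rw [pow_add]; norm_num
    have h4 : (1 : ℕ) ≤ 2 ^ r := Nat.one_le_two_pow
    have h5 : ((2 : ℤ) ^ (3 + r)) = 8 * 2 ^ r := by exact_mod_cast h3
    have h6 : (8 : ℤ) * 2 ^ r ≤ l := by
      rw [h3] at h1
      exact_mod_cast h1
    have h7 : (18 : ℤ) * 2 ^ r + 1 ≤ modifiedEGZ 3 (Fin (3 + r) → ZMod 3) := by exact_mod_cast h2
    have h8 : (1 : ℤ) ≤ 2 ^ r := by exact_mod_cast h4
    rw [h5]
    linarith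
  refine ⟨?_, main, ?_⟩
  · intro d hd
    obtain ⟨r, rfl⟩ : ∃ r, d = 3 + r := ⟨d - 3, by omega⟩
    have hr : 3 + r - 3 = r := by omega
    rw [hr]
    exact ⟨seq r, sum_seq r, card_seq r, no_three r⟩
  · intro h
    have hl : IsLeast {m : ℕ | 2 ^ 3 ≤ m ∧ ¬ m ∣ 3} 8 := by
      refine ⟨⟨by norm_num, by norm_num⟩, ?_⟩
      rintro m ⟨hm, -⟩
      omega
    have h1 := h 3 1 3 (by norm_num) (by norm_num) (by norm_num) 8 hl
    have h2 := (main 3 le_rfl).2.2 8 hl
    norm_num at h1 h2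
    omega

end Pool.Agent.Results.MP_b34cfe_co.CapCounterexample
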